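import Mathlib

set_option autoImplicit false

/-!
Failure of the weak Lefschetz property does not force a complete intersection dual generator.

Let `n = 4`, `I = (x₀x₁, x₂x₃)` and `(a₀, a₁, a₂, a₃) = (3, 5, 3, 5)`. In degree `t = 4` the algebra
`A = R/J` has `dim A₃ = dim A₄ = 10`, and for every linear form `L` with nonzero coefficients `c_i`
the kernel `𝒦` of `F ↦ L ∘ F` on the dual of `A₄` is spanned by `(c₃ y₁ - c₁ y₃)^4`. The annihilator of
this form contains three independent linear forms `x₀, x₂, L`, but an ideal `I + (θ₁, …, θ_r)`,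
`r = dim R/I = 2`, contains at most two.
-/

namespace Pool.Agent.Results.MP_2332b0_al.NoDualGenerator

open MvPolynomial

/-! ### Definitions of the problem -/

section Defs

variable {n : ℕ} {K : Type*} [Field K]

/-- The action `g ∘ F` of `R = K[x_1, …, x_n]` on `S = K[y_1, …, y_n]` by differentiation, the variable
`x_i` acting as `∂/∂y_i`: the monomial `x^u` sends `y^v` to `∏ v_i!/(v_i - u_i)! y^(v-u)` if `u ≤ v`
and to `0` otherwise (the product of the descending factorials is then zero). -/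
noncomputable def act (g F : MvPolynomial (Fin n) K) : MvPolynomial (Fin n) K :=
  ∑ u ∈ g.support, ∑ v ∈ F.support,
    monomial (v - u) (coeff u g * coeff v F * ∏ i, ((v i).descFactorial (u i) : K))

/-- The ideal generated by the squarefree monomials with supports in `Fs`. -/
noncomputable def sqI (K : Type*) [Field K] (Fs : Finset (Finset (Fin n))) :
    Ideal (MvPolynomial (Fin n) K) :=
  Ideal.span {f | ∃ A ∈ Fs, f = ∏ i ∈ A, X i}

/-- The ideal `J = I + (x_1^{a_1}, …, x_n^{a_n})`. -/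
noncomputable def idJ (K : Type*) [Field K] (Fs : Finset (Finset (Fin n))) (a : Fin n → ℕ) :
    Ideal (MvPolynomial (Fin n) K) :=
  sqI K Fs ⊔ Ideal.span {f | ∃ i, f = X i ^ a i}

/-- The linear form with coefficients `c`. -/
noncomputable def lin (c : Fin n → K) : MvPolynomial (Fin n) K := ∑ i, C (c i) * X i

/-- Multiplication by `L` from degree `t - 1` to degree `t` of `R/J` is injective. -/
def Inj (J : Ideal (MvPolynomial (Fin n) K)) (L : MvPolynomial (Fin n) K) (t : ℕ) : Prop :=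
  ∀ f : MvPolynomial (Fin n) K, f.IsHomogeneous (t - 1) → L * f ∈ J → f ∈ J

/-- Multiplication by `L` from degree `t - 1` to degree `t` of `R/J` is surjective. -/
def Surj (J : Ideal (MvPolynomial (Fin n) K)) (L : MvPolynomial (Fin n) K) (t : ℕ) : Prop :=
  ∀ h : MvPolynomial (Fin n) K, h.IsHomogeneous t →
    ∃ f : MvPolynomial (Fin n) K, f.IsHomogeneous (t - 1) ∧ h - L * f ∈ J

/-- The property `P` holds for the linear forms whose coefficient vectors are in a nonempty Zariski
open set. -/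
def ForGeneral (P : (Fin n → K) → Prop) : Prop :=
  ∃ D : MvPolynomial (Fin n) K, D ≠ 0 ∧ ∀ c, eval c D ≠ 0 → P c

/-- The kernel `𝒦 = {F ∈ S_t : J ∘ F = 0, L ∘ F = 0}`. -/
def InK (J : Ideal (MvPolynomial (Fin n) K)) (L : MvPolynomial (Fin n) K) (t : ℕ)
    (F : MvPolynomial (Fin n) K) : Prop :=
  F.IsHomogeneous t ∧ (∀ g ∈ J, act g F = 0) ∧ act L F = 0

/-- `F` is the Macaulay dual generator of `I + (θ_1, …, θ_r)` for some homogeneous system of
parameters `θ_1, …, θ_r` of `I`, `r = dim R/I`. -/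
def IsCIDual (I : Ideal (MvPolynomial (Fin n) K)) (F : MvPolynomial (Fin n) K) : Prop :=
  ∃ (r : ℕ) (θ : Fin r → MvPolynomial (Fin n) K),
    ringKrullDim (MvPolynomial (Fin n) K ⧸ I) = r ∧ (∀ i, ∃ d, (θ i).IsHomogeneous d) ∧
    IsArtinianRing (MvPolynomial (Fin n) K ⧸ (I ⊔ Ideal.span (Set.range θ))) ∧
    {g | act g F = 0} = ((I ⊔ Ideal.span (Set.range θ) : Ideal (MvPolynomial (Fin n) K)) :
      Set (MvPolynomial (Fin n) K))

/-- Q1 over the field `K`. A squarefree monomial ideal that is a complete intersection and contains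
no pure power of a variable is an ideal generated by squarefree monomials whose supports are pairwise
disjoint and have at least two elements. -/
def Q1 (K : Type*) [Field K] : Prop :=
  ∀ (n : ℕ) (Fs : Finset (Finset (Fin n))) (a : Fin n → ℕ) (t : ℕ),
    (∀ A ∈ Fs, 2 ≤ A.card) → (∀ A ∈ Fs, ∀ B ∈ Fs, A ≠ B → Disjoint A B) → (∀ i, 2 < a i) →
    1 ≤ t →
    ForGeneral (fun c : Fin n → K => ¬ Inj (idJ K Fs a) (lin c) t ∧ ¬ Surj (idJ K Fs a) (lin c) t) →
    ForGeneral (fun c : Fin n → K =>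
      ∃ F : MvPolynomial (Fin n) K, F ≠ 0 ∧ InK (idJ K Fs a) (lin c) t F ∧ IsCIDual (sqI K Fs) F)

end Defs

variable {K : Type*} [Field K]

/-! ### The action on coefficients -/

lemma coeff_act {n : ℕ} (g F : MvPolynomial (Fin n) K) (w : Fin n →₀ ℕ) :
    coeff w (act g F) = ∑ u ∈ g.support,
      coeff u g * coeff (w + u) F * ∏ i, (((w + u) i).descFactorial (u i) : K) := by
  classical
  unfold act
  rw [coeff_sum]
  refine Finset.sum_congr rfl fun u _ => ?_
  rw [coeff_sum]
  simp_rw [coeff_monomial]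
  rw [Finset.sum_eq_single (w + u)]
  · rw [if_pos (add_tsub_cancel_right w u)]
  · intro v _ hv
    by_cases h1 : v - u = w
    · rw [if_pos h1]
      have h2 : ¬ u ≤ v := by
        intro h3
        apply hv
        rw [← h1, tsub_add_cancel_of_le h3]
      rw [Finsupp.le_def, not_forall] at h2
      obtain ⟨i, hi⟩ := h2
      have h3 : ∏ i, ((v i).descFactorial (u i) : K) = 0 := by
        apply Finset.prod_eq_zero (Finset.mem_univ i)
        rw [Nat.descFactorial_eq_zero_iff_lt.mpr (not_le.mp hi), Nat.cast_zero]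
      rw [h3, mul_zero]
    · rw [if_neg h1]
  · intro h
    rw [notMem_support_iff.mp h, mul_zero, zero_mul]
    split_ifs <;> simp

/-! ### The example -/

/-- The supports `{0, 1}` and `{2, 3}`. -/
def Fs : Finset (Finset (Fin 4)) := {{0, 1}, {2, 3}}

/-- The exponents `3, 5, 3, 5`. -/
def av : Fin 4 → ℕ := ![3, 5, 3, 5]

/-- The exponents of the monomials in `J`. -/
def Bad (u : Fin 4 →₀ ℕ) : Prop :=
  (1 ≤ u 0 ∧ 1 ≤ u 1) ∨ (1 ≤ u 2 ∧ 1 ≤ u 3) ∨ 3 ≤ u 0 ∨ 5 ≤ u 1 ∨ 3 ≤ u 2 ∨ 5 ≤ u 3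

/-- Generators of `J`. -/
noncomputable def gens : Set (Fin 4 →₀ ℕ) :=
  {Finsupp.single 0 1 + Finsupp.single 1 1, Finsupp.single 2 1 + Finsupp.single 3 1,
    Finsupp.single 0 3, Finsupp.single 1 5, Finsupp.single 2 3, Finsupp.single 3 5}

lemma idJ_eq : idJ K Fs av = Ideal.span ((fun u => monomial u (1 : K)) '' gens) := by
  unfold idJ sqI
  rw [← Ideal.span_union]
  congr 1
  ext f
  simp only [Set.mem_union, Set.mem_ofPred_eq, Fs, Finset.mem_insert, Finset.mem_singleton, gens,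
    Set.mem_image, Set.mem_insert_iff, Set.mem_singleton_iff, exists_eq_or_imp, exists_eq_left]
  have h01 : (∏ i ∈ ({0, 1} : Finset (Fin 4)), (X i : MvPolynomial (Fin 4) K)) =
      monomial (Finsupp.single 0 1 + Finsupp.single 1 1) 1 := by
    rw [Finset.prod_pair (by decide), X, X, monomial_mul, mul_one]
  have h23 : (∏ i ∈ ({2, 3} : Finset (Fin 4)), (X i : MvPolynomial (Fin 4) K)) =
      monomial (Finsupp.single 2 1 + Finsupp.single 3 1) 1 := by
    rw [Finset.prod_pair (by decide), X, X, monomial_mul, mul_one]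
  rw [h01, h23]
  constructor
  · rintro ((rfl | rfl) | ⟨i, rfl⟩)
    · simp
    · simp
    · rw [X_pow_eq_monomial]
      fin_cases i <;> simp [av]
  · rintro (h | h | h | h | h | h)
    · exact Or.inl (Or.inl h.symm)
    · exact Or.inl (Or.inr h.symm)
    · exact Or.inr ⟨0, by rw [← h, X_pow_eq_monomial]; rfl⟩
    · exact Or.inr ⟨1, by rw [← h, X_pow_eq_monomial]; rfl⟩
    · exact Or.inr ⟨2, by rw [← h, X_pow_eq_monomial]; rfl⟩
    · exact Or.inr ⟨3, by rw [← h, X_pow_eq_monomial]; rfl⟩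

lemma le_iff4 (v u : Fin 4 →₀ ℕ) : v ≤ u ↔ v 0 ≤ u 0 ∧ v 1 ≤ u 1 ∧ v 2 ≤ u 2 ∧ v 3 ≤ u 3 := by
  rw [Finsupp.le_def, Fin.forall_fin_succ, Fin.forall_fin_succ, Fin.forall_fin_succ,
    Fin.forall_fin_succ]
  simp [Fin.succ_one_eq_two]

lemma mem_J_iff (f : MvPolynomial (Fin 4) K) : f ∈ idJ K Fs av ↔ ∀ u ∈ f.support, Bad u := by
  rw [idJ_eq, mem_ideal_span_monomial_image]
  refine forall₂_congr fun u _ => ?_
  simp only [gens, Set.mem_insert_iff, Set.mem_singleton_iff, exists_eq_or_imp, exists_eq_left,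
    le_iff4, Bad]
  simp

lemma coeff_act_subset {n : ℕ} (g F : MvPolynomial (Fin n) K) (w : Fin n →₀ ℕ)
    (s : Finset (Fin n →₀ ℕ)) (hs : g.support ⊆ s) :
    coeff w (act g F) = ∑ u ∈ s,
      coeff u g * coeff (w + u) F * ∏ i, (((w + u) i).descFactorial (u i) : K) := by
  rw [coeff_act]
  apply Finset.sum_subset hs
  intro u _ hu
  rw [notMem_support_iff.mp hu, zero_mul, zero_mul]

lemma coeff_lin {n : ℕ} (c : Fin n → K) (u : Fin n →₀ ℕ) :
    coeff u (lin c) = ∑ i, if Finsupp.single i 1 = u then c i else 0 := by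
  classical
  unfold lin
  rw [coeff_sum]
  refine Finset.sum_congr rfl fun i _ => ?_
  rw [coeff_C_mul, coeff_X]
  split_ifs <;> simp

lemma single_inj {n : ℕ} {i j : Fin n} (h : Finsupp.single i 1 = Finsupp.single j (1 : ℕ)) :
    i = j := by
  by_contra hne
  have h1 := DFunLike.congr_fun h i
  rw [Finsupp.single_eq_same, Finsupp.single_eq_of_ne hne] at h1
  exact one_ne_zero h1

lemma coeff_single_lin {n : ℕ} (c : Fin n → K) (i : Fin n) :
    coeff (Finsupp.single i 1) (lin c) = c i := by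
  rw [coeff_lin, Finset.sum_eq_single i]
  · rw [if_pos rfl]
  · intro j _ hj
    rw [if_neg (fun h => hj (single_inj h))]
  · intro h
    exact absurd (Finset.mem_univ i) h

lemma support_lin {n : ℕ} (c : Fin n → K) :
    (lin c).support ⊆ Finset.univ.image (fun i : Fin n => Finsupp.single i (1 : ℕ)) := by
  intro u hu
  rw [mem_support_iff, coeff_lin] at hu
  obtain ⟨i, _, hi⟩ := Finset.exists_ne_zero_of_sum_ne_zero hu
  rw [Finset.mem_image]
  refine ⟨i, Finset.mem_univ i, ?_⟩
  by_contra hne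
  rw [if_neg hne] at hi
  exact hi rfl

lemma coeff_act_lin {n : ℕ} (c : Fin n → K) (F : MvPolynomial (Fin n) K) (w : Fin n →₀ ℕ) :
    coeff w (act (lin c) F) = ∑ i, c i * ((w i : K) + 1) * coeff (w + Finsupp.single i 1) F := by
  rw [coeff_act_subset _ _ _ _ (support_lin c), Finset.sum_image (fun i _ j _ h => single_inj h)]
  refine Finset.sum_congr rfl fun i _ => ?_
  rw [coeff_single_lin, Finset.prod_eq_single i]
  · rw [Finsupp.add_apply, Finsupp.single_eq_same, Nat.descFactorial_one]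
    push_cast
    ring
  · intro j _ hj
    rw [Finsupp.single_eq_of_ne hj, Nat.descFactorial_zero, Nat.cast_one]
  · intro h
    exact absurd (Finset.mem_univ i) h

lemma lin_X {n : ℕ} (i : Fin n) : lin (fun j => if j = i then (1 : K) else 0) = X i := by
  unfold lin
  rw [Finset.sum_eq_single i]
  · simp
  · intro j _ hj
    simp [hj]
  · intro h
    exact absurd (Finset.mem_univ i) h

lemma coeff_act_X {n : ℕ} (i : Fin n) (F : MvPolynomial (Fin n) K) (w : Fin n →₀ ℕ) :
    coeff w (act (X i) F) = ((w i : K) + 1) * coeff (w + Finsupp.single i 1) F := by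
  rw [← lin_X, coeff_act_lin, Finset.sum_eq_single i]
  · simp
  · intro j _ hj
    simp [hj]
  · intro h
    exact absurd (Finset.mem_univ i) h

/-- If the monomial `x^u` kills `F` then `y^u` does not occur in `F`. -/
lemma coeff_eq_zero_of_act [CharZero K] {n : ℕ} {u : Fin n →₀ ℕ} {F : MvPolynomial (Fin n) K}
    (h : act (monomial u 1) F = 0) : coeff u F = 0 := by
  classical
  have h1 := coeff_act_subset (monomial u (1 : K)) F 0 {u} support_monomial_subset
  rw [h, coeff_zero, Finset.sum_singleton, zero_add, coeff_monomial, if_pos rfl, one_mul] at h1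
  have h2 : ∏ i, ((u i).descFactorial (u i) : K) ≠ 0 := by
    rw [Finset.prod_ne_zero_iff]
    intro i _
    rw [Nat.descFactorial_self]
    exact_mod_cast (u i).factorial_ne_zero
  exact (mul_eq_zero.mp h1.symm).resolve_right h2

/-! ### The kernel -/

/-- The exponent `(a, b, c, d)`. -/
noncomputable def E (a b c d : ℕ) : Fin 4 →₀ ℕ := Finsupp.equivFunOnFinite.symm ![a, b, c, d]

lemma E_0 (a b c d : ℕ) : E a b c d 0 = a := rfl
lemma E_1 (a b c d : ℕ) : E a b c d 1 = b := rfl
lemma E_2 (a b c d : ℕ) : E a b c d 2 = c := rfl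
lemma E_3 (a b c d : ℕ) : E a b c d 3 = d := rfl

lemma ext4 {u v : Fin 4 →₀ ℕ} (h0 : u 0 = v 0) (h1 : u 1 = v 1) (h2 : u 2 = v 2)
    (h3 : u 3 = v 3) : u = v := by
  ext i
  fin_cases i
  · exact h0
  · exact h1
  · exact h2
  · exact h3

lemma E_eta (u : Fin 4 →₀ ℕ) : E (u 0) (u 1) (u 2) (u 3) = u := ext4 rfl rfl rfl rfl

lemma E_add (a b c d a' b' c' d' : ℕ) :
    E a b c d + E a' b' c' d' = E (a + a') (b + b') (c + c') (d + d') := ext4 rfl rfl rfl rfl

lemma single_0 (k : ℕ) : Finsupp.single (0 : Fin 4) k = E k 0 0 0 := by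
  apply ext4 <;> simp [Finsupp.single_apply, E_0, E_1, E_2, E_3]
lemma single_1 (k : ℕ) : Finsupp.single (1 : Fin 4) k = E 0 k 0 0 := by
  apply ext4 <;> simp [Finsupp.single_apply, E_0, E_1, E_2, E_3]
lemma single_2 (k : ℕ) : Finsupp.single (2 : Fin 4) k = E 0 0 k 0 := by
  apply ext4 <;> simp [Finsupp.single_apply, E_0, E_1, E_2, E_3]
lemma single_3 (k : ℕ) : Finsupp.single (3 : Fin 4) k = E 0 0 0 k := by
  apply ext4 <;> simp [Finsupp.single_apply, E_0, E_1, E_2, E_3]

lemma coeff_bad [CharZero K] {L G : MvPolynomial (Fin 4) K} (hG : InK (idJ K Fs av) L 4 G)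
    {u : Fin 4 →₀ ℕ} (hu : Bad u) : coeff u G = 0 := by
  apply coeff_eq_zero_of_act
  apply hG.2.1
  rw [mem_J_iff]
  intro v hv
  have := support_monomial_subset hv
  rw [Finset.mem_singleton] at this
  rwa [this]

lemma eq_rel {c : Fin 4 → K} {G : MvPolynomial (Fin 4) K} (hG : act (lin c) G = 0)
    (p q r s : ℕ) :
    c 0 * ((p : K) + 1) * coeff (E (p + 1) q r s) G + c 1 * ((q : K) + 1) * coeff (E p (q + 1) r s) G +
      c 2 * ((r : K) + 1) * coeff (E p q (r + 1) s) G +
      c 3 * ((s : K) + 1) * coeff (E p q r (s + 1)) G = 0 := by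
  have h := coeff_act_lin c G (E p q r s)
  rw [hG, coeff_zero, Fin.sum_univ_four, single_0, single_1, single_2, single_3, E_add, E_add, E_add,
    E_add] at h
  simp only [add_zero, E_0, E_1, E_2, E_3] at h
  exact h.symm

/-- All forms in the kernel only involve `y₁` and `y₃`. -/
lemma kernel [CharZero K] {c : Fin 4 → K} (hc : ∀ i, c i ≠ 0) {G : MvPolynomial (Fin 4) K}
    (hG : InK (idJ K Fs av) (lin c) 4 G) {u : Fin 4 →₀ ℕ} (hu : 1 ≤ u 0 ∨ 1 ≤ u 2) :
    coeff u G = 0 := by
  have hb : ∀ p q r s, (1 ≤ p ∧ 1 ≤ q) ∨ (1 ≤ r ∧ 1 ≤ s) ∨ 3 ≤ p ∨ 5 ≤ q ∨ 3 ≤ r ∨ 5 ≤ s →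
      coeff (E p q r s) G = 0 := fun p q r s h => coeff_bad hG h
  have hrel := fun p q r s => eq_rel hG.2.2 p q r s
  have two : (2 : K) ≠ 0 := two_ne_zero
  have three : (3 : K) ≠ 0 := three_ne_zero
  -- y0^2 y2^2
  have h1 : coeff (E 2 0 2 0) G = 0 := by
    have h := hrel 2 0 1 0
    rw [hb (2 + 1) 0 1 0 (by omega), hb 2 (0 + 1) 1 0 (by omega), hb 2 0 1 (0 + 1) (by omega)] at h
    have h' : c 2 * 2 * coeff (E 2 0 2 0) G = 0 := by
      have e : coeff (E 2 0 (1 + 1) 0) G = coeff (E 2 0 2 0) G := rfl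
      rw [e] at h
      push_cast at h
      linear_combination h
    exact (mul_eq_zero.mp h').resolve_left (mul_ne_zero (hc 2) two)
  -- y0^2 y3^2
  have h2 : coeff (E 2 0 0 2) G = 0 := by
    have h := hrel 2 0 0 1
    rw [hb (2 + 1) 0 0 1 (by omega), hb 2 (0 + 1) 0 1 (by omega), hb 2 0 (0 + 1) 1 (by omega)] at h
    have h' : c 3 * 2 * coeff (E 2 0 0 2) G = 0 := by
      have e : coeff (E 2 0 0 (1 + 1)) G = coeff (E 2 0 0 2) G := rfl
      rw [e] at h
      push_cast at h
      linear_combination h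
    exact (mul_eq_zero.mp h').resolve_left (mul_ne_zero (hc 3) two)
  -- y0 y3^3
  have h3 : coeff (E 1 0 0 3) G = 0 := by
    have h := hrel 1 0 0 2
    have e1 : coeff (E (1 + 1) 0 0 2) G = 0 := h2
    rw [e1, hb 1 (0 + 1) 0 2 (by omega), hb 1 0 (0 + 1) 2 (by omega)] at h
    have h' : c 3 * 3 * coeff (E 1 0 0 3) G = 0 := by
      have e : coeff (E 1 0 0 (2 + 1)) G = coeff (E 1 0 0 3) G := rfl
      rw [e] at h
      push_cast at h
      linear_combination h
    exact (mul_eq_zero.mp h').resolve_left (mul_ne_zero (hc 3) three)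
  -- y1^2 y2^2
  have h4 : coeff (E 0 2 2 0) G = 0 := by
    have h := hrel 0 1 2 0
    rw [hb (0 + 1) 1 2 0 (by omega), hb 0 1 (2 + 1) 0 (by omega), hb 0 1 2 (0 + 1) (by omega)] at h
    have h' : c 1 * 2 * coeff (E 0 2 2 0) G = 0 := by
      have e : coeff (E 0 (1 + 1) 2 0) G = coeff (E 0 2 2 0) G := rfl
      rw [e] at h
      push_cast at h
      linear_combination h
    exact (mul_eq_zero.mp h').resolve_left (mul_ne_zero (hc 1) two)
  -- y1^3 y2
  have h5 : coeff (E 0 3 1 0) G = 0 := by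
    have h := hrel 0 2 1 0
    have e1 : coeff (E 0 2 (1 + 1) 0) G = 0 := h4
    rw [e1, hb (0 + 1) 2 1 0 (by omega), hb 0 2 1 (0 + 1) (by omega)] at h
    have h' : c 1 * 3 * coeff (E 0 3 1 0) G = 0 := by
      have e : coeff (E 0 (2 + 1) 1 0) G = coeff (E 0 3 1 0) G := rfl
      rw [e] at h
      push_cast at h
      linear_combination h
    exact (mul_eq_zero.mp h').resolve_left (mul_ne_zero (hc 1) three)
  by_cases hdeg : u 0 + u 1 + u 2 + u 3 = 4
  · rw [← E_eta u]
    have key : ∀ p q r s, p + q + r + s = 4 → (1 ≤ p ∨ 1 ≤ r) → coeff (E p q r s) G = 0 := by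
      intro p q r s hs hpr
      by_cases hbad : (1 ≤ p ∧ 1 ≤ q) ∨ (1 ≤ r ∧ 1 ≤ s) ∨ 3 ≤ p ∨ 5 ≤ q ∨ 3 ≤ r ∨ 5 ≤ s
      · exact hb p q r s hbad
      · push Not at hbad
        obtain ⟨b1, b2, b3, b4, b5, b6⟩ := hbad
        have hp : p = 0 ∨ p = 1 ∨ p = 2 := by omega
        have hr : r = 0 ∨ r = 1 ∨ r = 2 := by omega
        rcases hp with rfl | rfl | rfl
        · rcases hr with rfl | rfl | rfl
          · omega
          · obtain rfl : s = 0 := by omega
            obtain rfl : q = 3 := by omega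
            exact h5
          · obtain rfl : s = 0 := by omega
            obtain rfl : q = 2 := by omega
            exact h4
        · rcases hr with rfl | rfl | rfl
          · obtain rfl : q = 0 := by omega
            obtain rfl : s = 3 := by omega
            exact h3
          · omega
          · omega
        · rcases hr with rfl | rfl | rfl
          · obtain rfl : q = 0 := by omega
            obtain rfl : s = 2 := by omega
            exact h2
          · omega
          · obtain rfl : q = 0 := by omega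
            obtain rfl : s = 0 := by omega
            exact h1
    exact key _ _ _ _ hdeg hu
  · by_contra hne
    apply hdeg
    have := hG.1 hne
    rw [Finsupp.weight_apply, Finsupp.sum_fintype _ _ (by simp), Fin.sum_univ_four] at this
    simpa using this

lemma act_X0 [CharZero K] {c : Fin 4 → K} (hc : ∀ i, c i ≠ 0) {G : MvPolynomial (Fin 4) K}
    (hG : InK (idJ K Fs av) (lin c) 4 G) : act (X 0) G = 0 := by
  ext w
  rw [coeff_act_X, coeff_zero, kernel hc hG, mul_zero]
  left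
  rw [Finsupp.add_apply, Finsupp.single_eq_same]
  omega

lemma act_X2 [CharZero K] {c : Fin 4 → K} (hc : ∀ i, c i ≠ 0) {G : MvPolynomial (Fin 4) K}
    (hG : InK (idJ K Fs av) (lin c) 4 G) : act (X 2) G = 0 := by
  ext w
  rw [coeff_act_X, coeff_zero, kernel hc hG, mul_zero]
  right
  rw [Finsupp.add_apply, Finsupp.single_eq_same]
  omega

/-! ### Failure of the weak Lefschetz property in degree 3 -/

lemma gen01 : (X 0 * X 1 : MvPolynomial (Fin 4) K) ∈ sqI K Fs := by
  apply Ideal.subset_span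
  refine ⟨{0, 1}, by simp [Fs], ?_⟩
  rw [Finset.prod_pair (by decide)]

lemma gen23 : (X 2 * X 3 : MvPolynomial (Fin 4) K) ∈ sqI K Fs := by
  apply Ideal.subset_span
  refine ⟨{2, 3}, by simp [Fs], ?_⟩
  rw [Finset.prod_pair (by decide)]

lemma gen0 : (X 0 ^ 3 : MvPolynomial (Fin 4) K) ∈ idJ K Fs av :=
  Ideal.mem_sup_right (Ideal.subset_span ⟨0, rfl⟩)

lemma gen2 : (X 2 ^ 3 : MvPolynomial (Fin 4) K) ∈ idJ K Fs av :=
  Ideal.mem_sup_right (Ideal.subset_span ⟨2, rfl⟩)

lemma lin4 (c : Fin 4 → K) : lin c = C (c 0) * X 0 + C (c 1) * X 1 + C (c 2) * X 2 + C (c 3) * X 3 := by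
  unfold lin
  rw [Fin.sum_univ_four]

lemma not_inj {c : Fin 4 → K} (hc : ∀ i, c i ≠ 0) : ¬ Inj (idJ K Fs av) (lin c) 4 := by
  intro h
  have h1 := h (C (c 0) * (X 0 ^ 2 * X 2) - C (c 2) * (X 0 * X 2 ^ 2)) ?_ ?_
  · rw [mem_J_iff] at h1
    have h2 : coeff (E 2 0 1 0) (C (c 0) * (X 0 ^ 2 * X 2) - C (c 2) * (X 0 * X 2 ^ 2)) = c 0 := by
      rw [coeff_sub, coeff_C_mul, coeff_C_mul]
      have e1 : (X 0 ^ 2 * X 2 : MvPolynomial (Fin 4) K) = monomial (E 2 0 1 0) 1 := by
        rw [X_pow_eq_monomial, X, monomial_mul, mul_one, single_0, single_2, E_add]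
      have e2 : (X 0 * X 2 ^ 2 : MvPolynomial (Fin 4) K) = monomial (E 1 0 2 0) 1 := by
        rw [X_pow_eq_monomial, X, monomial_mul, mul_one, single_0, single_2, E_add]
      rw [e1, e2, coeff_monomial, coeff_monomial, if_pos rfl, if_neg]
      · ring
      · intro h3
        have := DFunLike.congr_fun h3 0
        rw [E_0, E_0] at this
        omega
    have h3 := h1 (E 2 0 1 0) (by rw [mem_support_iff, h2]; exact hc 0)
    unfold Bad at h3
    rw [E_0, E_1, E_2, E_3] at h3
    omega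
  · have e : ∀ i : Fin 4, (X i : MvPolynomial (Fin 4) K).IsHomogeneous 1 := isHomogeneous_X K
    apply IsHomogeneous.sub
    · have := (isHomogeneous_C (Fin 4) (c 0)).mul (((e 0).pow 2).mul (e 2))
      exact this
    · have := (isHomogeneous_C (Fin 4) (c 2)).mul ((e 0).mul ((e 2).pow 2))
      exact this
  · have e : lin c * (C (c 0) * (X 0 ^ 2 * X 2) - C (c 2) * (X 0 * X 2 ^ 2)) =
        C (c 0) ^ 2 * X 2 * X 0 ^ 3 - C (c 2) ^ 2 * X 0 * X 2 ^ 3 +
        C (c 1) * (C (c 0) * X 0 * X 2 - C (c 2) * X 2 ^ 2) * (X 0 * X 1) +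
        C (c 3) * (C (c 0) * X 0 ^ 2 - C (c 2) * X 0 * X 2) * (X 2 * X 3) := by
      rw [lin4]
      ring
    rw [e]
    refine Ideal.add_mem _ (Ideal.add_mem _ (Ideal.sub_mem _ ?_ ?_) ?_) ?_
    · exact Ideal.mul_mem_left _ _ gen0
    · exact Ideal.mul_mem_left _ _ gen2
    · exact Ideal.mul_mem_left _ _ (Ideal.mem_sup_left gen01)
    · exact Ideal.mul_mem_left _ _ (Ideal.mem_sup_left gen23)

lemma isHomogeneous_lin (c : Fin 4 → K) : (lin c).IsHomogeneous 1 := by
  unfold lin
  apply IsHomogeneous.sum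
  intro i _
  have := (isHomogeneous_C (Fin 4) (c i)).mul (isHomogeneous_X K i)
  rwa [zero_add] at this

lemma not_surj {c : Fin 4 → K} (hc : ∀ i, c i ≠ 0) : ¬ Surj (idJ K Fs av) (lin c) 4 := by
  intro h
  obtain ⟨f, hf, hJ⟩ := h (X 1 ^ 4) (isHomogeneous_X_pow 1 4)
  set P : Fin 4 → K := ![0, c 3, 0, - c 1] with hP
  have hL : eval P (lin c) = 0 := by
    rw [lin4]
    simp only [map_add, map_mul, eval_C, eval_X, hP]
    simp
    ring
  have hhom : (X 1 ^ 4 - lin c * f).IsHomogeneous 4 := by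
    apply IsHomogeneous.sub (isHomogeneous_X_pow 1 4)
    exact (isHomogeneous_lin c).mul hf
  have h0 : eval P (X 1 ^ 4 - lin c * f) = 0 := by
    rw [eval_eq']
    apply Finset.sum_eq_zero
    intro u hu
    have hb := (mem_J_iff _).mp hJ u hu
    have hd := hhom (mem_support_iff.mp hu)
    rw [Finsupp.weight_apply, Finsupp.sum_fintype _ _ (by simp), Fin.sum_univ_four] at hd
    simp only [Pi.one_apply, smul_eq_mul, mul_one] at hd
    have h1 : 1 ≤ u 0 ∨ 1 ≤ u 2 := by
      unfold Bad at hb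
      omega
    have h2 : ∏ i, P i ^ u i = 0 := by
      rcases h1 with h1 | h1
      · apply Finset.prod_eq_zero (Finset.mem_univ 0)
        rw [hP]
        exact zero_pow (by omega)
      · apply Finset.prod_eq_zero (Finset.mem_univ 2)
        rw [hP]
        exact zero_pow (by omega)
    rw [h2, mul_zero]
  rw [map_sub, map_mul, hL, zero_mul, sub_zero, map_pow, eval_X] at h0
  have h1 : P 1 = c 3 := rfl
  rw [h1] at h0
  exact hc 3 (pow_eq_zero_iff (by norm_num) |>.mp h0)

/-! ### The dimension of `R/I` -/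

lemma sqI_le : (sqI K Fs : Ideal (MvPolynomial (Fin 4) K)) ≤ Ideal.span {X 0 * X 1} ⊔
    Ideal.span {X 2 * X 3} := by
  unfold sqI
  rw [Ideal.span_le]
  rintro f ⟨A, hA, rfl⟩
  simp only [Fs, Finset.mem_insert, Finset.mem_singleton] at hA
  rcases hA with rfl | rfl
  · rw [Finset.prod_pair (by decide)]
    exact Ideal.mem_sup_left (Ideal.mem_span_singleton_self _)
  · rw [Finset.prod_pair (by decide)]
    exact Ideal.mem_sup_right (Ideal.mem_span_singleton_self _)

lemma sqI_eq : (sqI K Fs : Ideal (MvPolynomial (Fin 4) K)) = Ideal.span {X 0 * X 1} ⊔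
    Ideal.span {X 2 * X 3} := by
  apply le_antisymm sqI_le
  rw [sup_le_iff, Ideal.span_singleton_le_iff_mem, Ideal.span_singleton_le_iff_mem]
  exact ⟨gen01, gen23⟩

lemma dvd_of_dvd_mul_X {i j : Fin 4} (hij : i ≠ j) {f : MvPolynomial (Fin 4) K}
    (h : X i ∣ f * X j) : X i ∣ f := by
  rcases X_dvd_mul_iff.mp h with h | h
  · exact h
  · rw [X_dvd_X] at h
    exact absurd h hij

lemma regular_aux {f : MvPolynomial (Fin 4) K} (h : X 0 * X 1 ∣ f * (X 2 * X 3)) :
    X 0 * X 1 ∣ f := by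
  have h0 : X 0 ∣ f := by
    have h1 : X 0 ∣ f * X 2 * X 3 := by
      rw [mul_assoc]
      exact (dvd_mul_right _ _).trans h
    exact dvd_of_dvd_mul_X (by decide) (dvd_of_dvd_mul_X (by decide) h1)
  obtain ⟨g, rfl⟩ := h0
  apply mul_dvd_mul_left
  have h2 : X 1 ∣ g * X 2 * X 3 := by
    have h3 : X 0 * X 1 ∣ X 0 * (g * X 2 * X 3) := by
      refine h.trans (dvd_of_eq ?_)
      ring
    exact (mul_dvd_mul_iff_left (X_ne_zero 0)).mp h3
  exact dvd_of_dvd_mul_X (by decide) (dvd_of_dvd_mul_X (by decide) h2)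

lemma dim_le : ringKrullDim (MvPolynomial (Fin 4) K ⧸ sqI K Fs) ≤ 2 := by
  have h0 : ringKrullDim (MvPolynomial (Fin 4) K) = 4 := by
    rw [MvPolynomial.ringKrullDim_of_isNoetherianRing, ringKrullDim_eq_zero_of_field]
    simp
  have h1 : ringKrullDim (MvPolynomial (Fin 4) K ⧸ Ideal.span {(X 0 * X 1 : MvPolynomial (Fin 4) K)})
      + 1 ≤ 4 := by
    rw [← h0]
    apply ringKrullDim_quotient_succ_le_of_nonZeroDivisor
    exact mem_nonZeroDivisors_of_ne_zero (mul_ne_zero (X_ne_zero 0) (X_ne_zero 1))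
  have h2 : ringKrullDim (MvPolynomial (Fin 4) K ⧸ sqI K Fs) + 1 ≤
      ringKrullDim (MvPolynomial (Fin 4) K ⧸ Ideal.span {(X 0 * X 1 : MvPolynomial (Fin 4) K)}) := by
    rw [sqI_eq, ← ringKrullDim_eq_of_ringEquiv (DoubleQuot.quotQuotEquivQuotSup
      (Ideal.span {(X 0 * X 1 : MvPolynomial (Fin 4) K)}) (Ideal.span {X 2 * X 3})),
      Ideal.map_span, Set.image_singleton]
    apply ringKrullDim_quotient_succ_le_of_nonZeroDivisor
    rw [mem_nonZeroDivisors_iff_right]
    intro x hx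
    obtain ⟨f, rfl⟩ := Ideal.Quotient.mk_surjective x
    rw [← map_mul, Ideal.Quotient.eq_zero_iff_mem, Ideal.mem_span_singleton] at hx
    rw [Ideal.Quotient.eq_zero_iff_mem, Ideal.mem_span_singleton]
    exact regular_aux hx
  have h3 : ringKrullDim (MvPolynomial (Fin 4) K ⧸ sqI K Fs) + 1 + 1 ≤ 4 := by
    calc _ ≤ ringKrullDim (MvPolynomial (Fin 4) K ⧸
          Ideal.span {(X 0 * X 1 : MvPolynomial (Fin 4) K)}) + 1 := by gcongr
      _ ≤ 4 := h1
  generalize ringKrullDim (MvPolynomial (Fin 4) K ⧸ sqI K Fs) = x at h3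
  induction x using WithBot.recBotCoe with
  | bot => exact bot_le
  | coe y =>
    induction y using ENat.recTopCoe with
    | top => exact absurd h3 (by decide)
    | coe m =>
      have h4 : (((m + 1 + 1 : ℕ) : ℕ∞) : WithBot ℕ∞) ≤ ((4 : ℕ) : ℕ∞) := h3
      have h5 : m + 1 + 1 ≤ 4 := Nat.cast_le.mp (WithBot.coe_le_coe.mp h4)
      have h6 : ((m : ℕ∞) : WithBot ℕ∞) ≤ ((2 : ℕ) : ℕ∞) :=
        WithBot.coe_le_coe.mpr (Nat.cast_le.mpr (by omega))
      exact h6

/-! ### Linear parts -/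

/-- The vector of linear coefficients. -/
noncomputable def lp (f : MvPolynomial (Fin 4) K) : Fin 4 → K := fun i => coeff (Finsupp.single i 1) f

lemma lp_mul (f g : MvPolynomial (Fin 4) K) :
    lp (f * g) = constantCoeff f • lp g + constantCoeff g • lp f := by
  classical
  funext i
  unfold lp
  rw [Pi.add_apply, Pi.smul_apply, Pi.smul_apply, coeff_mul, Finsupp.antidiagonal_single,
    Finset.sum_map]
  simp only [Finset.Nat.antidiagonal_succ, Finset.Nat.antidiagonal_zero, constantCoeff_eq]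
  simp
  ring

/-- The ideal of polynomials without constant term and with linear part in `W`. -/
noncomputable def NI (W : Submodule K (Fin 4 → K)) : Ideal (MvPolynomial (Fin 4) K) where
  carrier := {f | constantCoeff f = 0 ∧ lp f ∈ W}
  zero_mem' := ⟨map_zero _, by
    have : lp (0 : MvPolynomial (Fin 4) K) = 0 := by
      funext i
      exact coeff_zero _
    rw [this]
    exact W.zero_mem⟩
  add_mem' := by
    rintro f g ⟨hf, hf'⟩ ⟨hg, hg'⟩
    refine ⟨by rw [map_add, hf, hg, add_zero], ?_⟩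
    have : lp (f + g) = lp f + lp g := by
      funext i
      exact coeff_add _ _ _
    rw [this]
    exact W.add_mem hf' hg'
  smul_mem' := by
    rintro f g ⟨hg, hg'⟩
    refine ⟨by rw [smul_eq_mul, map_mul, hg, mul_zero], ?_⟩
    rw [smul_eq_mul, lp_mul, hg, zero_smul, add_zero]
    exact W.smul_mem _ hg'

lemma mem_NI {W : Submodule K (Fin 4 → K)} {f : MvPolynomial (Fin 4) K} :
    f ∈ NI W ↔ constantCoeff f = 0 ∧ lp f ∈ W := Iff.rfl

lemma sqI_le_NI (W : Submodule K (Fin 4 → K)) : sqI K Fs ≤ NI W := by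
  have h : ∀ i j : Fin 4, (X i * X j : MvPolynomial (Fin 4) K) ∈ NI W := by
    intro i j
    rw [mem_NI, lp_mul, constantCoeff_X, constantCoeff_X, zero_smul, zero_smul, add_zero, map_mul,
      constantCoeff_X, zero_mul]
    exact ⟨rfl, W.zero_mem⟩
  rw [sqI_eq, sup_le_iff, Ideal.span_singleton_le_iff_mem, Ideal.span_singleton_le_iff_mem]
  exact ⟨h 0 1, h 2 3⟩

lemma act_one {n : ℕ} (F : MvPolynomial (Fin n) K) : act 1 F = F := by
  classical
  ext w
  rw [coeff_act_subset 1 F w {0} (by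
    intro u hu
    rw [mem_support_iff, coeff_one] at hu
    by_contra h
    rw [Finset.mem_singleton] at h
    exact hu (if_neg (Ne.symm h))), Finset.sum_singleton]
  simp

lemma not_dual [CharZero K] {c : Fin 4 → K} (hc : ∀ i, c i ≠ 0) {G : MvPolynomial (Fin 4) K}
    (hG0 : G ≠ 0) (hG : InK (idJ K Fs av) (lin c) 4 G) : ¬ IsCIDual (sqI K Fs) G := by
  rintro ⟨r, θ, hr, hhom, -, hAnn⟩
  have hr2 : r ≤ 2 := by
    have := dim_le (K := K)
    rw [hr] at this
    exact_mod_cast this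
  have hmem : ∀ g : MvPolynomial (Fin 4) K, act g G = 0 → g ∈ sqI K Fs ⊔ Ideal.span (Set.range θ) := by
    intro g hg
    have h1 : g ∈ {g | act g G = 0} := hg
    rw [hAnn] at h1
    exact h1
  have hmem' : ∀ g : MvPolynomial (Fin 4) K, g ∈ sqI K Fs ⊔ Ideal.span (Set.range θ) → act g G = 0 := by
    intro g hg
    have h1 : g ∈ ((sqI K Fs ⊔ Ideal.span (Set.range θ) : Ideal (MvPolynomial (Fin 4) K)) :
      Set (MvPolynomial (Fin 4) K)) := hg
    rw [← hAnn] at h1
    exact h1
  have h1 : (1 : MvPolynomial (Fin 4) K) ∉ sqI K Fs ⊔ Ideal.span (Set.range θ) := by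
    intro h
    have := hmem' 1 h
    rw [act_one] at this
    exact hG0 this
  have hθ0 : ∀ i, constantCoeff (θ i) = 0 := by
    intro i
    by_contra hne
    obtain ⟨d, hd⟩ := hhom i
    have hd0 : d = 0 := by
      have := hd (d := 0) (by rwa [constantCoeff_eq] at hne)
      rw [map_zero] at this
      exact this.symm
    rw [hd0] at hd
    have hC := totalDegree_eq_zero_iff_eq_C.mp (Nat.le_zero.mp hd.totalDegree_le)
    apply h1
    have h2 : θ i ∈ sqI K Fs ⊔ Ideal.span (Set.range θ) :=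
      Ideal.mem_sup_right (Ideal.subset_span ⟨i, rfl⟩)
    have h3 := Ideal.mul_mem_left _ (C (coeff 0 (θ i))⁻¹) h2
    rw [constantCoeff_eq] at hne
    rw [hC, ← C_mul] at h3
    simp only [coeff_zero_C] at h3
    rwa [inv_mul_cancel₀ hne, C_1] at h3
  set W : Submodule K (Fin 4 → K) := Submodule.span K (Set.range fun i => lp (θ i)) with hW
  have hle : sqI K Fs ⊔ Ideal.span (Set.range θ) ≤ NI W := by
    apply sup_le (sqI_le_NI W)
    rw [Ideal.span_le]
    rintro _ ⟨i, rfl⟩
    exact ⟨hθ0 i, Submodule.subset_span ⟨i, rfl⟩⟩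
  have hX0 : lp (X 0 : MvPolynomial (Fin 4) K) ∈ W := (hle (hmem _ (act_X0 hc hG))).2
  have hX2 : lp (X 2 : MvPolynomial (Fin 4) K) ∈ W := (hle (hmem _ (act_X2 hc hG))).2
  have hL : lp (lin c) ∈ W := (hle (hmem _ hG.2.2)).2
  have hfin : Module.finrank K W ≤ 2 := by
    refine le_trans (finrank_range_le_card (R := K) fun i => lp (θ i)) ?_
    rwa [Fintype.card_fin]
  have hind : LinearIndependent K ![(⟨_, hX0⟩ : W), ⟨_, hX2⟩, ⟨_, hL⟩] := by
    rw [Fintype.linearIndependent_iff]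
    intro g hg
    have hg' : g 0 • lp (X 0 : MvPolynomial (Fin 4) K) + g 1 • lp (X 2 : MvPolynomial (Fin 4) K) +
        g 2 • lp (lin c) = 0 := by
      rw [Fin.sum_univ_three] at hg
      exact congrArg Subtype.val hg
    have hv : ∀ i, g 0 * (if (0 : Fin 4) = i then 1 else 0) + g 1 * (if (2 : Fin 4) = i then 1 else 0) +
        g 2 * c i = 0 := by
      intro i
      have h := congrFun hg' i
      rw [Pi.add_apply, Pi.add_apply, Pi.smul_apply, Pi.smul_apply, Pi.smul_apply, smul_eq_mul,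
        smul_eq_mul, smul_eq_mul] at h
      have e0 : ∀ j, lp (X j : MvPolynomial (Fin 4) K) i = if j = i then 1 else 0 := by
        intro j
        unfold lp
        rw [← lin_X, coeff_single_lin]
        by_cases hij : i = j
        · rw [if_pos hij, if_pos hij.symm]
        · rw [if_neg hij, if_neg (Ne.symm hij)]
      rw [e0, e0] at h
      have e1 : lp (lin c) i = c i := coeff_single_lin c i
      rwa [e1] at h
    have g2 : g 2 = 0 := by
      have h := hv 1
      rw [if_neg (by decide), if_neg (by decide), mul_zero, mul_zero, zero_add, zero_add] at h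
      exact (mul_eq_zero.mp h).resolve_right (hc 1)
    have g0 : g 0 = 0 := by
      have h := hv 0
      rw [g2, if_pos rfl, if_neg (by decide)] at h
      simpa using h
    have g1 : g 1 = 0 := by
      have h := hv 2
      rw [g2, if_neg (by decide), if_pos rfl] at h
      simpa using h
    intro i
    fin_cases i
    · exact g0
    · exact g1
    · exact g2
  have := hind.fintype_card_le_finrank
  rw [Fintype.card_fin] at this
  omega

/-- For every field `K` of characteristic `0`, in `R = K[x₀, x₁, x₂, x₃]` with `I = (x₀x₁, x₂x₃)` and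
`J = I + (x₀³, x₁⁵, x₂³, x₃⁵)`: for every linear form `L` with nonzero coefficients, multiplication by
`L` from `(R/J)₃` to `(R/J)₄` is neither injective nor surjective, and no nonzero form of the kernel
`𝒦 ⊆ S₄` is the Macaulay dual generator of `I + (θ)` for a homogeneous system of parameters `θ`.
Hence the answer to Q1 is negative over `K`. -/
theorem result (K : Type*) [Field K] [CharZero K] :
    (∀ c : Fin 4 → K, (∀ i, c i ≠ 0) →
      ¬ Inj (idJ K {{0, 1}, {2, 3}} ![3, 5, 3, 5]) (lin c) 4 ∧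
      ¬ Surj (idJ K {{0, 1}, {2, 3}} ![3, 5, 3, 5]) (lin c) 4 ∧
      ∀ F : MvPolynomial (Fin 4) K, F ≠ 0 → InK (idJ K {{0, 1}, {2, 3}} ![3, 5, 3, 5]) (lin c) 4 F →
        ¬ IsCIDual (sqI K {{0, 1}, {2, 3}}) F) ∧
    ¬ Q1 K := by
  have hmain : ∀ c : Fin 4 → K, (∀ i, c i ≠ 0) →
      ¬ Inj (idJ K Fs av) (lin c) 4 ∧ ¬ Surj (idJ K Fs av) (lin c) 4 ∧
      ∀ F : MvPolynomial (Fin 4) K, F ≠ 0 → InK (idJ K Fs av) (lin c) 4 F →
        ¬ IsCIDual (sqI K Fs) F :=
    fun c hc => ⟨not_inj hc, not_surj hc, fun F hF0 hF => not_dual hc hF0 hF⟩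
  refine ⟨hmain, ?_⟩
  intro hQ
  have hne : ∀ c : Fin 4 → K, eval c (∏ i, X i : MvPolynomial (Fin 4) K) ≠ 0 → ∀ i, c i ≠ 0 := by
    intro c hc i
    rw [map_prod, Finset.prod_ne_zero_iff] at hc
    have := hc i (Finset.mem_univ i)
    rwa [eval_X] at this
  have hD : (∏ i, X i : MvPolynomial (Fin 4) K) ≠ 0 := by
    rw [Finset.prod_ne_zero_iff]
    intro i _
    exact X_ne_zero i
  obtain ⟨D, hD0, hD1⟩ := hQ 4 Fs av 4 (by decide) (by decide) (by decide) (by norm_num)
    ⟨∏ i, X i, hD, fun c hc => ⟨(hmain c (hne c hc)).1, (hmain c (hne c hc)).2.1⟩⟩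
  have hprod : D * ∏ i, X i ≠ 0 := mul_ne_zero hD0 hD
  have : ∃ c : Fin 4 → K, eval c (D * ∏ i, X i) ≠ 0 := by
    by_contra hcon
    push Not at hcon
    apply hprod
    apply MvPolynomial.funext
    intro c
    rw [hcon c, map_zero]
  obtain ⟨c, hc⟩ := this
  rw [map_mul] at hc
  obtain ⟨F, hF0, hF1, hF2⟩ := hD1 c (left_ne_zero_of_mul hc)
  exact (hmain c (hne c (right_ne_zero_of_mul hc))).2.2 F hF0 hF1 hF2

end Pool.Agent.Results.MP_2332b0_al.NoDualGenerator
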